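import Mathlib
import Pool.Agent.H832R2.Tors

/-!
Torsion elements and centralizers in free products.
-/

namespace Pool.Agent.W702.CoHopf

open Monoid.CoprodI Pool.Agent.H832R2

section

variable {ι : Type} [DecidableEq ι] {M : ι → Type} [∀ i, Group (M i)]

/-- a reduced list of syllables -/
def Red (L : List (Σ i, M i)) : Prop :=
  (∀ s ∈ L, Sigma.snd s ≠ 1) ∧ L.IsChain (fun s t => Sigma.fst s ≠ Sigma.fst t)

theorem pr_inj {L L' : List (Σ i, M i)} (h : Red L) (h' : Red L') (e : pr L = pr L') : L = L' := by
  classical
  let w : Word M := ⟨L, h.1, h.2⟩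
  let w' : Word M := ⟨L', h'.1, h'.2⟩
  have hw : w.prod = w'.prod := e
  exact congrArg Word.toList ((Word.equiv (M := M)).symm.injective (a₁ := w) (a₂ := w') hw)

theorem exists_red (z : Monoid.CoprodI M) : ∃ L, Red L ∧ pr L = z := by
  classical
  let w := Word.equiv (M := M) z
  refine ⟨w.toList, ⟨w.ne_one, w.chain_ne⟩, ?_⟩
  have : w.prod = z := (Word.equiv (M := M)).symm_apply_apply z
  exact this

/-- `n` copies of `L` -/
def rep (L : List (Σ i, M i)) : ℕ → List (Σ i, M i)
  | 0 => []
  | n + 1 => L ++ rep L n

theorem pr_rep (L : List (Σ i, M i)) (n : ℕ) : pr (rep L n) = pr L ^ n := by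
  induction n with
  | zero => simp [rep, pr]
  | succ n ih => rw [rep, pr_append, ih, pow_succ']

theorem red_rep (s u : Σ i, M i) (N : List (Σ i, M i)) (h : Red (s :: (N ++ [u])))
    (hsu : u.1 ≠ s.1) (n : ℕ) : Red (rep (s :: (N ++ [u])) n) := by
  induction n with
  | zero => exact ⟨fun x hx => absurd hx (by simp [rep]), List.IsChain.nil⟩
  | succ n ih =>
    refine ⟨?_, ?_⟩
    · intro x hx
      rw [rep] at hx
      rcases List.mem_append.1 hx with h1 | h1
      · exact h.1 x h1
      · exact ih.1 x h1
    · rw [rep, List.isChain_append]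
      refine ⟨h.2, ih.2, ?_⟩
      intro x hx y hy
      have hx' : u = x := by
        have : (s :: (N ++ [u])).getLast? = some u := by
          rw [← List.cons_append, List.getLast?_append]
          simp
        rw [this] at hx
        exact Option.some.inj hx
      cases n with
      | zero => simp [rep] at hy
      | succ n =>
        simp only [rep, List.cons_append, List.head?_cons, Option.mem_def, Option.some.injEq] at hy
        rw [← hx', ← hy]
        exact hsu

theorem exists_conj_pow (z : Monoid.CoprodI M) (k : ℕ) (hk : 0 < k) (hz : z ^ k = 1)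
    (hne : z ≠ 1) :
    ∃ (c : Monoid.CoprodI M) (i : ι) (m : M i), c⁻¹ * z * c = of m := by
  classical
  have hex : ∃ n, ∃ (c : Monoid.CoprodI M) (L : List (Σ i, M i)), L.length = n ∧
      pr L = c⁻¹ * z * c := by
    obtain ⟨L, hL⟩ := exists_pr z
    exact ⟨L.length, 1, L, rfl, by simp [hL]⟩
  obtain ⟨c, L, hn, hL⟩ := Nat.find_spec hex
  have hmin : ∀ (c : Monoid.CoprodI M) (L' : List (Σ i, M i)), pr L' = c⁻¹ * z * c →
      L.length ≤ L'.length := by
    intro c L' h
    rw [hn]
    exact Nat.find_min' hex ⟨c, L', rfl, h⟩
  have hne' : pr L ≠ 1 := by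
    rw [hL]
    intro h
    apply hne
    have : z = c * (c⁻¹ * z * c) * c⁻¹ := by group
    rw [this, h]; group
  rcases L with _ | ⟨s, L⟩
  · exact absurd rfl hne'
  rcases L with _ | ⟨t, L⟩
  · exact ⟨c, s.1, s.2, by rw [← hL, pr_cons, pr_nil, mul_one]⟩
  exfalso
  have hred : ∀ s' ∈ (s :: t :: L), Sigma.snd s' ≠ 1 := by
    intro s' hs' h1
    obtain ⟨L1, L2, h2⟩ := List.append_of_mem hs'
    have := hmin c (L1 ++ L2) (by
      rw [← hL, h2, pr_append, pr_append, pr_cons, h1, map_one, one_mul])
    rw [h2] at this
    simp only [List.length_append, List.length_cons] at this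
    omega
  have hch : (s :: t :: L).IsChain (fun s t => Sigma.fst s ≠ Sigma.fst t) := by
    by_contra hc
    obtain ⟨L1, a, b, L2, h1, h2⟩ := not_chain _ hc
    obtain ⟨i, a⟩ := a
    obtain ⟨j, b⟩ := b
    simp only [ne_eq, not_not] at h2
    subst h2
    have := hmin c (L1 ++ ⟨i, a * b⟩ :: L2) (by
      rw [← hL, h1, pr_append, pr_append, pr_cons, pr_cons, pr_cons, ← mul_assoc (of _), ← map_mul])
    rw [h1] at this
    simp only [List.length_append, List.length_cons] at this
    omega
  -- first and last
  obtain ⟨N, u, hN⟩ : ∃ N u, t :: L = N ++ [u] :=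
    ⟨(t :: L).dropLast, (t :: L).getLast (by simp), (List.dropLast_append_getLast (by simp)).symm⟩
  have hsu : u.1 ≠ s.1 := by
    obtain ⟨i, u⟩ := u
    obtain ⟨j, s⟩ := s
    intro h
    simp only at h
    subst h
    have := hmin (c * of s) (N ++ [⟨i, u * s⟩]) (by
      have e1 : pr (⟨i, s⟩ :: t :: L) = of s * (pr N * of u) := by
        rw [pr_cons, hN, pr_append, pr_cons, pr_nil, mul_one]
      rw [hL] at e1
      rw [pr_append, pr_cons, pr_nil, mul_one, map_mul]
      have e2 : (c * of s)⁻¹ * z * (c * of s) = (of s)⁻¹ * (c⁻¹ * z * c) * of s := by group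
      rw [e2, e1]
      group)
    rw [hN] at this
    simp only [List.length_append, List.length_cons] at this
    omega
  rw [hN] at hred hch hL
  have hR := red_rep s u N ⟨hred, hch⟩ hsu k
  refine pr_ne_one (rep (s :: (N ++ [u])) k) hR.1 hR.2 ?_ ?_
  · obtain ⟨k, rfl⟩ := Nat.exists_eq_succ_of_ne_zero hk.ne'
    simp [rep]
  · rw [pr_rep, hL]
    have e : (c⁻¹ * z * c) = MulAut.conj c⁻¹ z := by simp
    rw [e, ← map_pow, hz, map_one]

/-- an element commuting with a nontrivial element of a commutative factor lies in this factor -/
theorem mem_of_commute {i : ι} (m : M i) (hm : m ≠ 1) (hcomm : ∀ x y : M i, x * y = y * x)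
    (z : Monoid.CoprodI M) (h : z * of m = of m * z) : ∃ x : M i, z = of x := by
  classical
  -- strip the last letter
  have key : ∀ (L : List (Σ i, M i)), Red L → (∀ u ∈ L.getLast?, Sigma.fst u ≠ i) →
      pr L * of m = of m * pr L → L = [] := by
    intro L hL hlast hc
    by_contra hne
    obtain ⟨s, L', rfl⟩ := List.exists_cons_of_ne_nil hne
    have hR : Red ((s :: L') ++ [⟨i, m⟩]) := by
      refine ⟨?_, ?_⟩
      · intro x hx
        rcases List.mem_append.1 hx with h1 | h1
        · exact hL.1 x h1
        · rw [List.mem_singleton] at h1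
          subst h1
          exact hm
      · rw [List.isChain_append]
        refine ⟨hL.2, List.IsChain.singleton _, ?_⟩
        intro x hx y hy
        simp only [List.head?_cons, Option.mem_def, Option.some.injEq] at hy
        rw [← hy]
        exact hlast x hx
    have e1 : pr ((s :: L') ++ [⟨i, m⟩]) = of m * pr (s :: L') := by
      rw [pr_append, ← hc, pr_cons ⟨i, m⟩, pr_nil, mul_one]
    by_cases hs : s.1 = i
    · obtain ⟨j, y⟩ := s
      simp only at hs
      subst hs
      by_cases hy : m * y = 1
      · have hR' : Red L' := ⟨fun x hx => hL.1 x (List.mem_cons_of_mem _ hx), hL.2.tail⟩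
        have := pr_inj hR hR' (by
          rw [e1, pr_cons, ← mul_assoc, ← map_mul, hy, map_one, one_mul])
        have := congrArg List.length this
        simp only [List.length_append, List.length_cons] at this
        omega
      · have hR' : Red (⟨j, m * y⟩ :: L') := by
          refine ⟨?_, ?_⟩
          · intro x hx
            rcases List.mem_cons.1 hx with h1 | h1
            · subst h1; exact hy
            · exact hL.1 x (List.mem_cons_of_mem _ h1)
          · have := hL.2
            rw [List.isChain_cons] at this ⊢
            exact this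
        have := pr_inj hR hR' (by
          rw [e1, pr_cons, pr_cons, map_mul, mul_assoc])
        have := congrArg List.length this
        simp only [List.length_append, List.length_cons] at this
        simp at this
    · have hR' : Red (⟨i, m⟩ :: s :: L') := by
        refine ⟨?_, ?_⟩
        · intro x hx
          rcases List.mem_cons.1 hx with h1 | h1
          · subst h1; exact hm
          · exact hL.1 x h1
        · rw [List.isChain_cons_cons]
          exact ⟨fun h => hs h.symm, hL.2⟩
      have := pr_inj hR hR' (by rw [e1, pr_cons ⟨i, m⟩])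
      simp only [List.cons_append, List.cons.injEq] at this
      exact hs (by rw [this.1])
  obtain ⟨L, hL, rfl⟩ := exists_red z
  rcases List.eq_nil_or_concat L with rfl | ⟨N, u, rfl⟩
  · exact ⟨1, by rw [pr_nil, map_one]⟩
  · rw [List.concat_eq_append] at *
    by_cases hu : u.1 = i
    · obtain ⟨j, x⟩ := u
      simp only at hu
      subst hu
      have hRN : Red N := ⟨fun y hy => hL.1 y (List.mem_append_left _ hy), hL.2.left_of_append⟩
      have hN : N = [] := by
        apply key N hRN
        · intro v hv
          have := hL.2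
          rw [List.isChain_append] at this
          exact this.2.2 v hv ⟨j, x⟩ (by simp)
        · rw [pr_append, pr_cons, pr_nil, mul_one] at h
          have h2 : pr N * (of x * of m) = of m * pr N * of x := by
            rw [← mul_assoc, h, mul_assoc]
          rw [← map_mul, hcomm x m, map_mul, ← mul_assoc] at h2
          exact mul_right_cancel h2
      refine ⟨x, ?_⟩
      rw [hN, List.nil_append, pr_cons, pr_nil, mul_one]
    · exfalso
      have := key (N ++ [u]) hL (by
        intro v hv
        rw [List.getLast?_append] at hv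
        simp at hv
        rw [← hv]
        exact hu) h
      simp at this

end

end Pool.Agent.W702.CoHopf
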