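import Mathlib
import Pool.Agent.H832R2.Tors
import Pool.Agent.W702.CoHopf.FreeProd

/-!
The group `(C_3 * C_5) ⋊ C_2`: it is co-hopfian, its subgroup `C_3 * C_5` of index two is not.
-/

namespace Pool.Agent.W702.CoHopf

open Monoid.CoprodI Pool.Agent.H832R2

/-- orders of the two factors -/
abbrev q (b : Bool) : ℕ := if b then 3 else 5

/-- the two factors -/
abbrev M (b : Bool) : Type := Multiplicative (ZMod (q b))

/-- the free product -/
abbrev N : Type := Monoid.CoprodI M

instance instCG (b : Bool) : CommGroup (M b) := inferInstanceAs (CommGroup (Multiplicative (ZMod (q b))))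

theorem factq (b : Bool) : Fact (q b).Prime := by
  cases b
  · exact ⟨by norm_num [q]⟩
  · exact ⟨by norm_num [q]⟩

theorem card_M (b : Bool) : Nat.card (M b) = q b := by
  have : Nat.card (ZMod (q b)) = q b := Nat.card_zmod (q b)
  exact this

theorem pow_q (b : Bool) (x : M b) : x ^ q b = 1 := by
  have := pow_card_eq_one' (x := x)
  rwa [card_M] at this

/-- inversion of the letters -/
noncomputable def sigma : N →* N := Monoid.CoprodI.lift fun b => (of (M := M) (i := b)).comp invMonoidHom

theorem sigma_of {b : Bool} (x : M b) : sigma (of x) = (of x⁻¹ : N) := by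
  simp [sigma]

theorem sigma_sigma (z : N) : sigma (sigma z) = z := by
  have : sigma.comp sigma = MonoidHom.id N := by
    apply Monoid.CoprodI.ext_hom
    intro b
    ext x
    simp [sigma_of]
  exact DFunLike.congr_fun this z

/-- inversion of the letters as an automorphism -/
noncomputable def sigmaAut : MulAut N where
  toFun := sigma
  invFun := sigma
  left_inv := sigma_sigma
  right_inv := sigma_sigma
  map_mul' := sigma.map_mul

/-- the action of `{1, -1}` -/
noncomputable def act : ℤˣ →* MulAut N where
  toFun u := if u = 1 then 1 else sigmaAut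
  map_one' := by simp
  map_mul' u v := by
    have h : sigmaAut * sigmaAut = 1 := by
      ext z
      exact sigma_sigma z
    rcases Int.units_eq_one_or u with rfl | rfl <;> rcases Int.units_eq_one_or v with rfl | rfl <;>
      simp [h]

/-- the group `(C_3 * C_5) ⋊ C_2` -/
abbrev G : Type := N ⋊[act] ℤˣ

theorem act_neg (z : N) : act (-1) z = sigma z := by
  have : act (-1) = sigmaAut := by simp [act]
  rw [this]; rfl

theorem odd_sq {b : Bool} (x : M b) (h : x * x = 1) : x = 1 := by
  have h1 : orderOf x ∣ 2 := orderOf_dvd_of_pow_eq_one (by rw [pow_two, h])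
  have h2 : orderOf x ∣ q b := orderOf_dvd_of_pow_eq_one (pow_q b x)
  have h3 : orderOf x ∣ Nat.gcd 2 (q b) := Nat.dvd_gcd h1 h2
  have h4 : Nat.gcd 2 (q b) = 1 := by cases b <;> simp [q]
  rw [h4, Nat.dvd_one, orderOf_eq_one_iff] at h3
  exact h3

/-- square roots in the factors -/
theorem exists_sq {b : Bool} (x : M b) : ∃ y : M b, y * y = x := by
  have h := pow_q b x
  cases b
  · refine ⟨x ^ 3, ?_⟩
    have h5 : x ^ 5 = 1 := h
    calc x ^ 3 * x ^ 3 = x ^ 5 * x := by rw [← pow_add, ← pow_succ]
      _ = x := by rw [h5, one_mul]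
  · refine ⟨x ^ 2, ?_⟩
    have h3 : x ^ 3 = 1 := h
    calc x ^ 2 * x ^ 2 = x ^ 3 * x := by rw [← pow_add, ← pow_succ]
      _ = x := by rw [h3, one_mul]

theorem sigma_pr (L : List (Σ b, M b)) : sigma (pr L) = pr (L.map fun s => ⟨s.1, s.2⁻¹⟩) := by
  induction L with
  | nil => simp [pr]
  | cons s L ih => rw [pr_cons, map_mul, ih, List.map_cons, pr_cons, sigma_of]

theorem sigma_fix (z : N) (h : sigma z = z) : z = 1 := by
  obtain ⟨L, hL, rfl⟩ := exists_red z
  have hR : Red (L.map fun s => (⟨s.1, s.2⁻¹⟩ : Σ b, M b)) := by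
    refine ⟨?_, ?_⟩
    · intro x hx
      obtain ⟨s, hs, rfl⟩ := List.mem_map.1 hx
      simpa using hL.1 s hs
    · rw [List.isChain_map]
      exact hL.2
  have e := pr_inj hR hL (by rw [← sigma_pr, h])
  rcases L with _ | ⟨s, L⟩
  · exact pr_nil
  · exfalso
    rw [List.map_cons, List.cons.injEq] at e
    obtain ⟨b, x⟩ := s
    have e1 := e.1
    rw [Sigma.mk.injEq] at e1
    have e2 : x⁻¹ = x := by simpa using e1
    refine hL.1 ⟨b, x⟩ (by simp) (odd_sq x ?_)
    calc x * x = x⁻¹ * x := by rw [e2]
      _ = 1 := inv_mul_cancel x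

/-- the generator of `C_2` -/
noncomputable def s : G := SemidirectProduct.inr (-1)

theorem of_inj' {b : Bool} {x y : M b} (h : (of x : N) = of y) : x = y :=
  Monoid.CoprodI.of_injective b h

/-- main step -/
theorem onto_aux (F : G →* G) (hF : Function.Injective F) (a : M true) (ha : a ≠ 1) (a' : M true)
    (hFa : F (SemidirectProduct.inl (of a)) = SemidirectProduct.inl (of a')) (hs : F s = s)
    (hN : ∀ n : N, ∃ n' : N, F (SemidirectProduct.inl n) = SemidirectProduct.inl n') :
    Function.Surjective F := by
  have hconj : ∀ n : N, s * SemidirectProduct.inl n * s⁻¹ = (SemidirectProduct.inl (sigma n) : G) := by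
    intro n
    have := SemidirectProduct.inl_aut (φ := act) (-1) n
    rw [act_neg] at this
    rw [this, s, map_inv]
  have hsig : ∀ n n' : N, F (SemidirectProduct.inl n) = SemidirectProduct.inl n' →
      F (SemidirectProduct.inl (sigma n)) = SemidirectProduct.inl (sigma n') := by
    intro n n' h
    rw [← hconj, map_mul, map_mul, map_inv, hs, h, hconj]
  -- the second factor
  have hb : ∀ y : M false, ∃ y' : M false, F (SemidirectProduct.inl (of y)) =
      SemidirectProduct.inl (of y') := by
    intro y
    by_cases hy : y = 1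
    · exact ⟨1, by rw [hy]; simp⟩
    obtain ⟨z, hz⟩ := hN (of y)
    have hz1 : z ≠ 1 := by
      intro h
      rw [h, map_one] at hz
      have : F (SemidirectProduct.inl (of y)) = F 1 := by rw [hz, map_one]
      have := hF this
      rw [← map_one (SemidirectProduct.inl (φ := act))] at this
      have := SemidirectProduct.inl_injective this
      rw [← map_one (of (M := M) (i := false))] at this
      exact hy (of_inj' this)
    have hz5 : z ^ 5 = 1 := by
      apply SemidirectProduct.inl_injective (φ := act)
      rw [map_pow, ← hz, ← map_pow, ← map_pow, ← map_pow]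
      have : y ^ 5 = 1 := pow_q false y
      rw [this]; simp
    obtain ⟨c, i, m, hcm⟩ := exists_conj_pow z 5 (by norm_num) hz5 hz1
    have hzc : z = c * of m * c⁻¹ := by rw [← hcm]; group
    have hm5 : m ^ 5 = 1 := by
      apply of_inj'
      rw [map_pow, map_one, ← hcm]
      have e : (c⁻¹ * z * c) = MulAut.conj c⁻¹ z := by simp
      rw [e, ← map_pow, hz5, map_one]
    have hm1 : m ≠ 1 := by
      intro h
      rw [h, map_one] at hzc
      apply hz1
      rw [hzc]; group
    cases i with
    | true =>
      exfalso
      have h3 : m ^ 3 = 1 := pow_q true m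
      apply hm1
      calc m = (m ^ 3) ^ 2 * (m ^ 5)⁻¹ := by group
        _ = 1 := by rw [h3, hm5]; simp
    | false =>
      -- symmetry
      have h1 := hsig _ _ hz
      rw [sigma_of, map_inv, map_inv, map_inv, hz, ← map_inv] at h1
      have h2 : z⁻¹ = sigma z := SemidirectProduct.inl_injective h1
      rw [hzc, map_mul, map_mul, map_inv, sigma_of] at h2
      have h3 : (c⁻¹ * sigma c) * of m⁻¹ = of m⁻¹ * (c⁻¹ * sigma c) := by
        have h4 : c * of m⁻¹ * c⁻¹ = sigma c * of m⁻¹ * (sigma c)⁻¹ := by
          rw [← h2, map_inv]; group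
        calc (c⁻¹ * sigma c) * of m⁻¹ = c⁻¹ * (sigma c * of m⁻¹ * (sigma c)⁻¹) * sigma c := by group
          _ = c⁻¹ * (c * of m⁻¹ * c⁻¹) * sigma c := by rw [h4]
          _ = _ := by group
      obtain ⟨x, hx⟩ := mem_of_commute m⁻¹ (by simpa using hm1) (fun x y => mul_comm x y) _ h3
      obtain ⟨y', hy'⟩ := exists_sq x
      have h5 : sigma c = c * of x := by rw [← hx]; group
      have h6 : sigma (c * of y') = c * of y' := by
        rw [map_mul, sigma_of, h5, mul_assoc, ← map_mul, ← hy']
        congr 2
        group
      have h7 := sigma_fix _ h6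
      have h8 : c = of y'⁻¹ := by
        rw [map_inv]
        exact eq_inv_of_mul_eq_one_left h7
      refine ⟨m, ?_⟩
      rw [hz, hzc, h8, ← map_inv, ← map_mul, ← map_mul]
      congr 2
      rw [inv_inv, mul_comm y'⁻¹ m]
      group
  -- the image
  have hA : ∀ x : M true, ∃ g, F g = SemidirectProduct.inl (of x) := by
    have ha' : a' ≠ 1 := by
      intro h
      rw [h, map_one, map_one] at hFa
      have : F (SemidirectProduct.inl (of a)) = F 1 := by rw [hFa, map_one]
      have := hF this
      rw [← map_one (SemidirectProduct.inl (φ := act))] at this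
      have := SemidirectProduct.inl_injective this
      rw [← map_one (of (M := M) (i := true))] at this
      exact ha (of_inj' this)
    intro x
    haveI := factq true
    have hx := mem_zpowers_of_prime_card (G := M true) (p := q true) (card_M true) ha' (g' := x)
    obtain ⟨k, rfl⟩ := Subgroup.mem_zpowers_iff.1 hx
    exact ⟨SemidirectProduct.inl (of a) ^ k, by rw [map_zpow, hFa, map_zpow, map_zpow]⟩
  have hB : ∀ x : M false, ∃ g, F g = SemidirectProduct.inl (of x) := by
    let b : M false := Multiplicative.ofAdd (1 : ZMod 5)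
    have hb1 : b ≠ 1 := by
      intro h
      have : (1 : ZMod 5) = 0 := h
      revert this
      decide
    obtain ⟨b', hb'⟩ := hb b
    have hb'1 : b' ≠ 1 := by
      intro h
      rw [h, map_one, map_one] at hb'
      have : F (SemidirectProduct.inl (of b)) = F 1 := by rw [hb', map_one]
      have := hF this
      rw [← map_one (SemidirectProduct.inl (φ := act))] at this
      have := SemidirectProduct.inl_injective this
      rw [← map_one (of (M := M) (i := false))] at this
      exact hb1 (of_inj' this)
    intro x
    haveI := factq false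
    have hx := mem_zpowers_of_prime_card (G := M false) (p := q false) (card_M false) hb'1 (g' := x)
    obtain ⟨k, rfl⟩ := Subgroup.mem_zpowers_iff.1 hx
    exact ⟨SemidirectProduct.inl (of b) ^ k, by rw [map_zpow, hb', map_zpow, map_zpow]⟩
  have hNs : ∀ n : N, ∃ g, F g = SemidirectProduct.inl n := by
    intro n
    induction n using Monoid.CoprodI.induction_on with
    | one => exact ⟨1, by simp⟩
    | of i m => cases i with
      | true => exact hA m
      | false => exact hB m
    | mul x y hx hy =>
      obtain ⟨g, hg⟩ := hx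
      obtain ⟨h, hh⟩ := hy
      exact ⟨g * h, by rw [map_mul, map_mul, hg, hh]⟩
  intro g
  obtain ⟨g1, hg1⟩ := hNs g.left
  have hr : ∃ g2, F g2 = SemidirectProduct.inr g.right := by
    rcases Int.units_eq_one_or g.right with h | h
    · exact ⟨1, by rw [h]; simp⟩
    · exact ⟨s, by rw [h, hs]; rfl⟩
  obtain ⟨g2, hg2⟩ := hr
  exact ⟨g1 * g2, by rw [map_mul, hg1, hg2, SemidirectProduct.inl_left_mul_inr_right]⟩

end Pool.Agent.W702.CoHopf
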