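import Mathlib
import Pool.Agent.W702.CoHopf.Grp

/-!
`(C_3 * C_5) ⋊ C_2` is co-hopfian and `C_3 * C_5` is not.
-/

namespace Pool.Agent.W702.CoHopf

open Monoid.CoprodI Pool.Agent.H832R2

/-- A group is co-hopfian if each injective endomorphism is surjective. -/
def CoHopfian (G : Type) [Group G] : Prop :=
  ∀ f : G →* G, Function.Injective f → Function.Surjective f

theorem CoHopfian.congr {G H : Type} [Group G] [Group H] (e : G ≃* H) (h : CoHopfian G) :
    CoHopfian H := by
  intro f hf y
  have h1 : Function.Injective ((e.symm.toMonoidHom.comp f).comp e.toMonoidHom) :=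
    e.symm.injective.comp (hf.comp e.injective)
  obtain ⟨x, hx⟩ := h _ h1 (e.symm y)
  exact ⟨e x, e.symm.injective hx⟩

theorem right_trivial (F : G →* G) (n : N) : (F (SemidirectProduct.inl n)).right = 1 := by
  have h : (SemidirectProduct.rightHom.comp F).comp (SemidirectProduct.inl (φ := act)) =
      (1 : N →* ℤˣ) := by
    apply Monoid.CoprodI.ext_hom
    intro b
    refine MonoidHom.ext fun x => ?_
    show SemidirectProduct.rightHom (F (SemidirectProduct.inl (of x))) = 1
    set u : ℤˣ := SemidirectProduct.rightHom (F (SemidirectProduct.inl (of x))) with hu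
    have h1 : u ^ q b = 1 := by
      rw [hu, ← map_pow, ← map_pow, ← map_pow, ← map_pow, pow_q, map_one, map_one, map_one,
        map_one]
    have h2 : u ^ 2 = 1 := Int.units_sq u
    have h3 : u = 1 := by
      cases b with
      | false =>
        have h1' : u ^ 5 = 1 := h1
        calc u = u ^ 5 * ((u ^ 2) ^ 2)⁻¹ := by group
          _ = 1 := by rw [h1', h2]; simp
      | true =>
        have h1' : u ^ 3 = 1 := h1
        calc u = u ^ 3 * (u ^ 2)⁻¹ := by group
          _ = 1 := by rw [h1', h2]; simp
    exact h3
  exact DFunLike.congr_fun h n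

theorem maps_N (F : G →* G) (n : N) : ∃ n' : N, F (SemidirectProduct.inl n) =
    SemidirectProduct.inl n' := by
  refine ⟨(F (SemidirectProduct.inl n)).left, ?_⟩
  apply SemidirectProduct.ext
  · simp
  · rw [right_trivial]; simp

theorem coHopfian_G : CoHopfian G := by
  intro F hF
  let a : M true := Multiplicative.ofAdd (1 : ZMod 3)
  have ha : a ≠ 1 := by
    intro h
    have : (1 : ZMod 3) = 0 := h
    revert this
    decide
  have hinl : ∀ {n n' : N}, F (SemidirectProduct.inl n) = SemidirectProduct.inl n' → n' = 1 →
      n = 1 := by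
    intro n n' h h'
    rw [h', map_one] at h
    have : F (SemidirectProduct.inl n) = F 1 := by rw [h, map_one]
    have := hF this
    rw [← map_one (SemidirectProduct.inl (φ := act))] at this
    exact SemidirectProduct.inl_injective this
  obtain ⟨z, hz⟩ := maps_N F (of a)
  have hz1 : z ≠ 1 := by
    intro h
    have := hinl hz h
    rw [← map_one (of (M := M) (i := true))] at this
    exact ha (of_inj' this)
  have hz3 : z ^ 3 = 1 := by
    apply SemidirectProduct.inl_injective (φ := act)
    rw [map_pow, ← hz, ← map_pow, ← map_pow, ← map_pow]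
    have : a ^ 3 = 1 := pow_q true a
    rw [this]; simp
  obtain ⟨c, i, m, hcm⟩ := exists_conj_pow z 3 (by norm_num) hz3 hz1
  have hzc : z = c * of m * c⁻¹ := by rw [← hcm]; group
  have hm3 : m ^ 3 = 1 := by
    apply of_inj'
    rw [map_pow, map_one, ← hcm]
    have e : (c⁻¹ * z * c) = MulAut.conj c⁻¹ z := by simp
    rw [e, ← map_pow, hz3, map_one]
  have hm1 : m ≠ 1 := by
    intro h
    rw [h, map_one] at hzc
    apply hz1
    rw [hzc]; group
  cases i with
  | false =>
    exfalso
    have h5 : m ^ 5 = 1 := pow_q false m
    apply hm1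
    calc m = (m ^ 3) ^ 2 * (m ^ 5)⁻¹ := by group
      _ = 1 := by rw [h5, hm3]; simp
  | true =>
    -- the image of `s`
    have hss : s * s = 1 := by
      rw [s, ← map_mul]; simp
    have hr : (F s).right = -1 := by
      rcases Int.units_eq_one_or (F s).right with h | h
      · exfalso
        have h0 : F s = SemidirectProduct.inl (F s).left := by
          apply SemidirectProduct.ext
          · simp
          · rw [h]; simp
        have h1 : (F s).left * (F s).left = 1 := by
          apply SemidirectProduct.inl_injective (φ := act)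
          rw [map_mul, ← h0, ← map_mul, hss, map_one, map_one]
        have h2 : (F s).left ≠ 1 := by
          intro h3
          rw [h3, map_one] at h0
          have : F s = F 1 := by rw [h0, map_one]
          have := hF this
          have := congrArg SemidirectProduct.right this
          simp [s] at this
        obtain ⟨d, j, n, hd⟩ := exists_conj_pow (F s).left 2 (by norm_num) (by rw [pow_two, h1]) h2
        have h4 : n * n = 1 := by
          apply of_inj'
          rw [map_mul, map_one, ← hd]
          calc d⁻¹ * (F s).left * d * (d⁻¹ * (F s).left * d)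
              = d⁻¹ * ((F s).left * (F s).left) * d := by group
            _ = 1 := by rw [h1]; group
        rw [odd_sq n h4, map_one] at hd
        apply h2
        calc (F s).left = d * (d⁻¹ * (F s).left * d) * d⁻¹ := by group
          _ = 1 := by rw [hd]; group
      · exact h
    set n0 := (F s).left with hn0
    have hFs : F s = SemidirectProduct.inl n0 * s := by
      apply SemidirectProduct.ext
      · simp [s, hn0]
      · rw [hr]; simp [s]
    have hconj : ∀ n : N, s * SemidirectProduct.inl n * s⁻¹ =
        (SemidirectProduct.inl (sigma n) : G) := by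
      intro n
      have := SemidirectProduct.inl_aut (φ := act) (-1) n
      rw [act_neg] at this
      rw [this, s, map_inv]
    -- relation
    have hrel : n0 * sigma z * n0⁻¹ = z⁻¹ := by
      apply SemidirectProduct.inl_injective (φ := act)
      rw [map_mul, map_mul, ← hconj, ← hz, map_inv, map_inv, ← hz, ← map_inv F]
      have h1 : (SemidirectProduct.inl (of a))⁻¹ = s * SemidirectProduct.inl (of a) * s⁻¹ := by
        rw [hconj, sigma_of, map_inv, map_inv]
      rw [h1, map_mul, map_mul, map_inv, hFs]
      group
    set w := c⁻¹ * n0 * sigma c with hw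
    have hw1 : w * of m⁻¹ = of m⁻¹ * w := by
      rw [hzc, map_mul, map_mul, map_inv, sigma_of] at hrel
      calc w * of m⁻¹ = c⁻¹ * (n0 * (sigma c * of m⁻¹ * (sigma c)⁻¹) * n0⁻¹) * c * w := by
            rw [hw]; group
        _ = c⁻¹ * (c * of m * c⁻¹)⁻¹ * c * w := by rw [hrel]
        _ = of m⁻¹ * w := by rw [map_inv]; group
    obtain ⟨x, hx⟩ := mem_of_commute m⁻¹ (by simpa using hm1) (fun x y => mul_comm x y) _ hw1
    obtain ⟨y, hy⟩ := exists_sq x
    -- conjugate by `c y`
    let g : G := SemidirectProduct.inl (c * of y)
    let F' : G →* G := (MulAut.conj g⁻¹).toMonoidHom.comp F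
    have hF' : Function.Injective F' := (MulAut.conj g⁻¹).injective.comp hF
    have hF'a : F' (SemidirectProduct.inl (of a)) = SemidirectProduct.inl (of m) := by
      show MulAut.conj g⁻¹ (F (SemidirectProduct.inl (of a))) = _
      rw [hz, MulAut.conj_apply, inv_inv, ← map_inv, ← map_mul, ← map_mul, hzc]
      congr 1
      have h0 : of y⁻¹ * of m * of y = (of m : N) := by
        rw [← map_mul, ← map_mul]
        congr 1
        rw [mul_comm y⁻¹ m]; group
      calc (c * of y)⁻¹ * (c * of m * c⁻¹) * (c * of y) = (of y)⁻¹ * of m * of y := by group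
        _ = of m := by rw [← map_inv, h0]
    have hF's : F' s = s := by
      show MulAut.conj g⁻¹ (F s) = _
      rw [hFs, MulAut.conj_apply, inv_inv]
      have h1 : s * g = SemidirectProduct.inl (sigma (c * of y)) * s := by
        rw [← hconj]
        show _ = s * g * s⁻¹ * s
        group
      have h2 : (c * of y)⁻¹ * n0 * sigma (c * of y) = 1 := by
        rw [map_mul, sigma_of]
        calc (c * of y)⁻¹ * n0 * (sigma c * of y⁻¹) = (of y)⁻¹ * w * of y⁻¹ := by
              rw [hw]; group
          _ = 1 := by
              rw [hx, ← map_inv, ← map_mul, ← map_mul, ← hy]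
              have : y⁻¹ * (y * y) * y⁻¹ = 1 := by group
              rw [this, map_one]
      calc g⁻¹ * (SemidirectProduct.inl n0 * s) * g = g⁻¹ * SemidirectProduct.inl n0 * (s * g) := by
            group
        _ = SemidirectProduct.inl ((c * of y)⁻¹ * n0 * sigma (c * of y)) * s := by
            rw [h1, map_mul SemidirectProduct.inl ((c * of y)⁻¹ * n0) (sigma (c * of y)),
              map_mul SemidirectProduct.inl ((c * of y)⁻¹) n0,
              map_inv SemidirectProduct.inl (c * of y), mul_assoc, mul_assoc, mul_assoc]
        _ = s := by rw [h2, map_one, one_mul]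
    have hsurj := onto_aux F' hF' a ha m hF'a hF's (maps_N F')
    intro t
    obtain ⟨r, hr'⟩ := hsurj (MulAut.conj g⁻¹ t)
    exact ⟨r, (MulAut.conj g⁻¹).injective hr'⟩

/-! ## the free product is not co-hopfian -/

/-- the conjugating element -/
noncomputable def cj : N := of (i := false) (Multiplicative.ofAdd (1 : ZMod 5)) *
  of (i := true) (Multiplicative.ofAdd (1 : ZMod 3))

/-- the endomorphism -/
noncomputable def psi : N →* N := Monoid.CoprodI.lift fun b => match b with
  | true => of
  | false => (MulAut.conj cj).toMonoidHom.comp of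

/-- the word of the image of a letter -/
def ex : (Σ b, M b) → List (Σ b, M b)
  | ⟨true, x⟩ => [⟨true, x⟩]
  | ⟨false, y⟩ => [⟨false, Multiplicative.ofAdd (1 : ZMod 5)⟩, ⟨true, Multiplicative.ofAdd (1 : ZMod 3)⟩,
      ⟨false, y⟩, ⟨true, (Multiplicative.ofAdd (1 : ZMod 3))⁻¹⟩, ⟨false, (Multiplicative.ofAdd (1 : ZMod 5))⁻¹⟩]

/-- the word of the image -/
def exs : List (Σ b, M b) → List (Σ b, M b)
  | [] => []
  | s :: L => ex s ++ exs L

theorem psi_pr (L : List (Σ b, M b)) : psi (pr L) = pr (exs L) := by
  induction L with
  | nil => simp [pr, exs]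
  | cons s L ih =>
    rw [pr_cons, map_mul, ih, exs, pr_append]
    congr 1
    obtain ⟨b, x⟩ := s
    cases b with
    | true => simp [psi, ex, pr]
    | false =>
      simp only [psi, ex, pr_cons, pr_nil, mul_one, map_inv]
      rw [Monoid.CoprodI.lift_of]
      show MulAut.conj cj (of x) = _
      rw [MulAut.conj_apply, cj]
      group

theorem head_exs (L : List (Σ b, M b)) : ∀ y ∈ (exs L).head?, ∃ x ∈ L.head?, Sigma.fst x = Sigma.fst y := by
  intro y hy
  rcases L with _ | ⟨⟨b, x⟩, L⟩
  · simp [exs] at hy
  · cases b with
    | true =>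
      simp only [exs, ex, List.cons_append, List.head?_cons, Option.mem_def, Option.some.injEq] at hy
      refine ⟨⟨true, x⟩, by simp, ?_⟩
      rw [← hy]
    | false =>
      simp only [exs, ex, List.cons_append, List.head?_cons, Option.mem_def, Option.some.injEq] at hy
      refine ⟨⟨false, x⟩, by simp, ?_⟩
      rw [← hy]

theorem last_ex (s : Σ b, M b) : ∀ y ∈ (ex s).getLast?, Sigma.fst s = Sigma.fst y := by
  intro y hy
  obtain ⟨b, x⟩ := s
  cases b with
  | true =>
    simp only [ex, List.getLast?_singleton, Option.mem_def, Option.some.injEq] at hy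
    rw [← hy]
  | false =>
    simp only [ex, List.getLast?_cons_cons, List.getLast?_singleton, Option.mem_def,
      Option.some.injEq] at hy
    rw [← hy]

theorem one3 : (Multiplicative.ofAdd (1 : ZMod 3) : M true) ≠ 1 := by
  intro h
  have : (1 : ZMod 3) = 0 := h
  revert this
  decide

theorem one5 : (Multiplicative.ofAdd (1 : ZMod 5) : M false) ≠ 1 := by
  intro h
  have : (1 : ZMod 5) = 0 := h
  revert this
  decide

theorem red_exs (L : List (Σ b, M b)) (h : Red L) : Red (exs L) := by
  induction L with
  | nil => exact h
  | cons s L ih =>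
    have hL : Red L := ⟨fun x hx => h.1 x (List.mem_cons_of_mem _ hx), h.2.tail⟩
    have ih := ih hL
    have hs := h.1 s (by simp)
    refine ⟨?_, ?_⟩
    · intro x hx
      rw [exs] at hx
      rcases List.mem_append.1 hx with h1 | h1
      · obtain ⟨b, y⟩ := s
        cases b with
        | true =>
          rw [ex, List.mem_singleton] at h1
          subst h1
          exact hs
        | false =>
          simp only [ex, List.mem_cons, List.not_mem_nil, or_false] at h1
          rcases h1 with rfl | rfl | rfl | rfl | rfl
          · exact one5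
          · exact one3
          · exact hs
          · exact inv_ne_one.2 one3
          · exact inv_ne_one.2 one5
      · exact ih.1 x h1
    · rw [exs, List.isChain_append]
      refine ⟨?_, ih.2, ?_⟩
      · obtain ⟨b, y⟩ := s
        cases b with
        | true => exact List.IsChain.singleton _
        | false => simp [ex]
      · intro x hx y hy
        obtain ⟨z, hz, hzy⟩ := head_exs L y hy
        rw [← last_ex s x hx, ← hzy]
        have := h.2
        rw [List.isChain_cons] at this
        exact this.1 z hz

theorem psi_inj : Function.Injective psi := by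
  rw [injective_iff_map_eq_one]
  intro z hz
  obtain ⟨L, hL, rfl⟩ := exists_red z
  rw [psi_pr] at hz
  have := pr_inj (red_exs L hL) (L' := []) ⟨fun x hx => absurd hx (by simp), List.IsChain.nil⟩
    (by rw [hz, pr_nil])
  rcases L with _ | ⟨⟨b, x⟩, L⟩
  · exact pr_nil
  · exfalso
    cases b <;> simp [exs, ex] at this

theorem psi_not_surj : ¬ Function.Surjective psi := by
  intro h
  obtain ⟨z, hz⟩ := h (of (i := false) (Multiplicative.ofAdd (1 : ZMod 5)))
  obtain ⟨L, hL, rfl⟩ := exists_red z
  rw [psi_pr] at hz
  have hR : Red [(⟨false, Multiplicative.ofAdd (1 : ZMod 5)⟩ : Σ b, M b)] := by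
    refine ⟨?_, List.IsChain.singleton _⟩
    intro x hx
    rw [List.mem_singleton] at hx
    subst hx
    exact one5
  have := pr_inj (red_exs L hL) hR (by rw [hz, pr_cons, pr_nil, mul_one])
  rcases L with _ | ⟨⟨b, x⟩, L⟩
  · simp [exs] at this
  · cases b <;> simp [exs, ex] at this

theorem not_coHopfian_N : ¬ CoHopfian N := fun h => psi_not_surj (h psi psi_inj)

/-- the subgroup `C_3 * C_5` -/
noncomputable def H : Subgroup G := (SemidirectProduct.rightHom (φ := act)).ker

theorem H_eq : H = (SemidirectProduct.inl (φ := act)).range :=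
  SemidirectProduct.range_inl_eq_ker_rightHom.symm

theorem finiteIndex_H : H.FiniteIndex := by
  unfold H
  infer_instance

theorem index_H : H.index = 2 := by
  rw [H, Subgroup.index_ker]
  have : (SemidirectProduct.rightHom (φ := act)).range = ⊤ :=
    MonoidHom.range_eq_top.2 SemidirectProduct.rightHom_surjective
  rw [this]
  simp

theorem not_coHopfian_H : ¬ CoHopfian H := by
  intro h
  apply not_coHopfian_N
  have e : N ≃* H := (MonoidHom.ofInjective (SemidirectProduct.inl_injective (φ := act))).trans
    (MulEquiv.subgroupCongr H_eq.symm)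
  exact h.congr e.symm

end Pool.Agent.W702.CoHopf
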