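import Mathlib
import Pool.Agent.W702.CoHopf.Main

/-!
`S_3 × Z_(2)` is not co-hopfian but has a co-hopfian subgroup of index two.
-/

namespace Pool.Agent.W702.CoHopf.Ext

open Pool.Agent.W702.CoHopf

/-- the rationals with odd denominator -/
def A : AddSubgroup ℚ where
  carrier := {x | ¬ 2 ∣ x.den}
  zero_mem' := by simp
  add_mem' := by
    intro x y hx hy h
    have h1 : 2 ∣ x.den * y.den := h.trans (Rat.add_den_dvd x y)
    rcases (Nat.Prime.dvd_mul Nat.prime_two).1 h1 with h2 | h2
    · exact hx h2
    · exact hy h2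
  neg_mem' := by
    intro x hx
    simpa using hx

theorem mem_A {x : ℚ} : x ∈ A ↔ ¬ 2 ∣ x.den := Iff.rfl

theorem odd_den {x : ℚ} (hx : x ∈ A) : Odd (x.den : ℤ) := by
  rw [mem_A] at hx
  have : Odd x.den := Nat.odd_iff.2 (by omega)
  exact_mod_cast this

theorem div_mem {n d : ℤ} (hd : Odd d) : (n / d : ℚ) ∈ A := by
  rw [mem_A]
  intro h
  have h1 := Rat.den_dvd n d
  rcases hd with ⟨k, rfl⟩
  have h2 : (2 : ℤ) ∣ 2 * k + 1 := by
    refine dvd_trans ?_ h1
    exact_mod_cast h
  omega

theorem even_num {x : ℚ} {n d : ℤ} (hx : x ∈ A) (hd : Odd d) (h : x = n / d) :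
    Even x.num ↔ Even n := by
  have hd0 : (d : ℚ) ≠ 0 := by
    intro h0
    have : d = 0 := by exact_mod_cast h0
    rw [this] at hd
    simp at hd
  have hx0 : (x.den : ℚ) ≠ 0 := by exact_mod_cast x.den_nz
  have h1 : x.num * d = n * x.den := by
    have h2 : (x.num : ℚ) / x.den = n / d := by rw [Rat.num_div_den, h]
    rw [div_eq_div_iff hx0 hd0] at h2
    exact_mod_cast h2
  have h3 := odd_den hx
  constructor
  · intro he
    have : Even (n * x.den) := by rw [← h1]; exact he.mul_right _
    rcases Int.even_mul.1 this with h4 | h4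
    · exact h4
    · exact absurd h4 (Int.not_even_iff_odd.2 h3)
  · intro he
    have : Even (x.num * d) := by rw [h1]; exact he.mul_right _
    rcases Int.even_mul.1 this with h4 | h4
    · exact h4
    · exact absurd h4 (Int.not_even_iff_odd.2 hd)

/-- the rational number underlying an element of the multiplicative copy of `A` -/
def vl (x : Multiplicative A) : ℚ := ((Multiplicative.toAdd x : A) : ℚ)

theorem vl_one : vl 1 = 0 := rfl

theorem vl_mul (x y : Multiplicative A) : vl (x * y) = vl x + vl y := rfl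

theorem vl_inj {x y : Multiplicative A} (h : vl x = vl y) : x = y := Subtype.ext h

theorem vl_mem (x : Multiplicative A) : vl x ∈ A := (Multiplicative.toAdd x : A).2

/-- the element of the multiplicative copy of `A` given by a rational number -/
def mk (q : ℚ) (h : q ∈ A) : Multiplicative A := Multiplicative.ofAdd (⟨q, h⟩ : A)

theorem vl_mk (q : ℚ) (h : q ∈ A) : vl (mk q h) = q := rfl

/-- parity of the numerator -/
noncomputable def par : Multiplicative A →* ℤˣ where
  toFun x := if Even (vl x).num then 1 else -1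
  map_one' := by simp [vl_one]
  map_mul' x y := by
    have e : Even (vl (x * y)).num ↔
        Even ((vl x).num * (vl y).den + (vl y).num * (vl x).den) := by
      apply even_num (d := (vl x).den * (vl y).den)
        (vl_mem (x * y)) ((odd_den (vl_mem x)).mul (odd_den (vl_mem y)))
      have hx0 : ((vl x).den : ℚ) ≠ 0 := by
        exact_mod_cast (vl x).den_nz
      have hy0 : ((vl y).den : ℚ) ≠ 0 := by
        exact_mod_cast (vl y).den_nz
      have hx := Rat.num_div_den (vl x)
      have hy := Rat.num_div_den (vl y)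
      rw [vl_mul]
      push_cast
      conv_lhs => rw [← hx, ← hy]
      field_simp
    have hx := odd_den (vl_mem x)
    have hy := odd_den (vl_mem y)
    simp only [e]
    by_cases h1 : Even (vl x).num <;>
      by_cases h2 : Even (vl y).num
    · have : Even ((vl x).num * (vl y).den + (vl y).num * (vl x).den) :=
        (h1.mul_right _).add (h2.mul_right _)
      simp [h1, h2, this]
    · have : ¬ Even ((vl x).num * (vl y).den + (vl y).num * (vl x).den) := by
        rw [Int.not_even_iff_odd]
        exact (h1.mul_right _).add_odd ((Int.not_even_iff_odd.1 h2).mul hx)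
      simp [h1, h2, this]
    · have : ¬ Even ((vl x).num * (vl y).den + (vl y).num * (vl x).den) := by
        rw [Int.not_even_iff_odd]
        exact ((Int.not_even_iff_odd.1 h1).mul hy).add_even (h2.mul_right _)
      simp [h1, h2, this]
    · have : Even ((vl x).num * (vl y).den + (vl y).num * (vl x).den) :=
        ((Int.not_even_iff_odd.1 h1).mul hy).add_odd ((Int.not_even_iff_odd.1 h2).mul hx)
      simp [h1, h2, this]

theorem par_apply (x : Multiplicative A) : par x = if Even (vl x).num then 1 else -1 := rfl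

theorem par_eq_one (x : Multiplicative A) : par x = 1 ↔ Even (vl x).num := by
  rw [par_apply]
  split_ifs with h
  · simp [h]
  · simp only [h, iff_false]
    decide

/-- the group `S_3 × Z_(2)` -/
abbrev G2 : Type := Equiv.Perm (Fin 3) × Multiplicative A

/-- the index two subgroup -/
noncomputable def H2 : Subgroup G2 :=
  ((Equiv.Perm.sign.comp (MonoidHom.fst _ _)) * (par.comp (MonoidHom.snd _ _)) :
    G2 →* ℤˣ).ker

theorem mem_H2 (g : G2) : g ∈ H2 ↔ Equiv.Perm.sign g.1 = par g.2 := by
  rw [H2, MonoidHom.mem_ker]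
  show Equiv.Perm.sign g.1 * par g.2 = 1 ↔ _
  constructor
  · intro h
    have := mul_eq_one_iff_eq_inv.1 h
    rw [this, Int.units_inv_eq_self]
  · intro h
    rw [h, Int.units_mul_self]

theorem finiteIndex_H2 : H2.FiniteIndex := by
  unfold H2
  infer_instance

/-- doubling -/
def dbl : A →+ A where
  toFun x := x + x
  map_zero' := by simp
  map_add' x y := by abel

theorem one_mem : (1 : ℚ) ∈ A := by rw [mem_A]; simp

theorem not_coHopfian_G2 : ¬ CoHopfian G2 := by
  intro h
  let f : G2 →* G2 := (MonoidHom.id _).prodMap (AddMonoidHom.toMultiplicative dbl)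
  have hv : ∀ x : Multiplicative A, vl (AddMonoidHom.toMultiplicative dbl x) = vl x + vl x :=
    fun x => rfl
  have hf : Function.Injective f := by
    rintro ⟨p, x⟩ ⟨p', y⟩ hxy
    have h1 : p = p' := (Prod.mk.inj hxy).1
    have h2 : AddMonoidHom.toMultiplicative dbl x = AddMonoidHom.toMultiplicative dbl y :=
      (Prod.mk.inj hxy).2
    have h3 := congrArg vl h2
    rw [hv, hv] at h3
    have h6 : x = y := vl_inj (by linarith)
    rw [h1, h6]
  obtain ⟨⟨p, x⟩, hx⟩ := h f hf (1, mk 1 one_mem)
  have h2 : AddMonoidHom.toMultiplicative dbl x = mk 1 one_mem := (Prod.mk.inj hx).2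
  have h3 := congrArg vl h2
  rw [hv, vl_mk] at h3
  have h5 : vl x = 1 / 2 := by linarith
  have h6 := vl_mem x
  rw [h5, mem_A] at h6
  apply h6
  norm_num

/-- the homomorphism from the units of the integers onto a group of order two in `S_3` -/
def sec : ℤˣ →* Equiv.Perm (Fin 3) where
  toFun u := if u = 1 then 1 else Equiv.swap 0 1
  map_one' := by simp
  map_mul' := by decide

theorem sign_sec : ∀ u : ℤˣ, Equiv.Perm.sign (sec u) = u := by
  intro u
  show Equiv.Perm.sign (if u = 1 then 1 else Equiv.swap 0 1 : Equiv.Perm (Fin 3)) = u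
  revert u
  decide

theorem cube_even : ∀ p : Equiv.Perm (Fin 3), Equiv.Perm.sign p = 1 → p ^ 3 = 1 := by
  decide

theorem odd_conj : ∀ p q : Equiv.Perm (Fin 3), Equiv.Perm.sign q = 1 → Equiv.Perm.sign p = -1 →
    p * q * p⁻¹ = q⁻¹ := by
  decide

theorem even_comm : ∀ p q : Equiv.Perm (Fin 3), Equiv.Perm.sign q = 1 → Equiv.Perm.sign p = 1 →
    p * q * p⁻¹ = q := by
  decide

theorem vl_pow (x : Multiplicative A) (n : ℕ) : vl (x ^ n) = n * vl x := by
  induction n with
  | zero => simp [vl_one]
  | succ k ih => rw [pow_succ, vl_mul, ih]; push_cast; ring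

theorem vl_inv (x : Multiplicative A) : vl x⁻¹ = - vl x := rfl

theorem vl_zpow (x : Multiplicative A) (n : ℤ) : vl (x ^ n) = n * vl x := by
  cases n with
  | ofNat k => simpa using vl_pow x k
  | negSucc k =>
    rw [zpow_negSucc, vl_inv, vl_pow]
    push_cast
    ring

/-- a homomorphic section of the second projection of `H2` -/
noncomputable def sg : Multiplicative A →* H2 where
  toFun u := ⟨(sec (par u), u), by rw [mem_H2]; exact sign_sec _⟩
  map_one' := by apply Subtype.ext; simp
  map_mul' x y := by apply Subtype.ext; simp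

theorem sg_fst (u : Multiplicative A) : (sg u : G2).1 = sec (par u) := rfl

theorem sg_snd (u : Multiplicative A) : (sg u : G2).2 = u := rfl

theorem tors_snd {x : Multiplicative A} (h : x ^ 3 = 1) : x = 1 := by
  apply vl_inj
  have := congrArg vl h
  rw [vl_pow, vl_one] at this
  push_cast at this
  rw [vl_one]
  linarith

theorem T_cube {h : H2} (hh : (h : G2).2 = 1) : h ^ 3 = 1 := by
  apply Subtype.ext
  have h1 := (mem_H2 _).1 h.2
  rw [hh, map_one] at h1
  apply Prod.ext
  · show (h : G2).1 ^ 3 = 1
    exact cube_even _ h1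
  · show (h : G2).2 ^ 3 = 1
    rw [hh, one_pow]

theorem T_of_cube {h : H2} (hh : h ^ 3 = 1) : (h : G2).2 = 1 := by
  apply tors_snd
  have := congrArg (fun z : H2 => (z : G2).2) hh
  exact this

theorem T_sign {h : H2} (hh : (h : G2).2 = 1) : Equiv.Perm.sign (h : G2).1 = 1 := by
  have h1 := (mem_H2 _).1 h.2
  rwa [hh, map_one] at h1

theorem T_map (f : H2 →* H2) {h : H2} (hh : (h : G2).2 = 1) : (f h : G2).2 = 1 := by
  apply T_of_cube
  rw [← map_pow, T_cube hh, map_one]

/-- the torsion subgroup of `H2`, as a set -/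
def TT : Set H2 := {h | (h : G2).2 = 1}

theorem finite_TT : Finite TT := by
  have : Function.Injective (fun h : TT => (h : G2).1) := by
    intro x y hxy
    apply Subtype.ext
    apply Subtype.ext
    apply Prod.ext
    · exact hxy
    · exact (x.2 : ((x : H2) : G2).2 = 1).trans (y.2 : ((y : H2) : G2).2 = 1).symm
  exact Finite.of_injective _ this

theorem T_surj (f : H2 →* H2) (hf : Function.Injective f) {h : H2} (hh : (h : G2).2 = 1) :
    ∃ t : H2, (t : G2).2 = 1 ∧ f t = h := by
  have := finite_TT
  let F : TT → TT := fun t => ⟨f t, T_map f t.2⟩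
  have hF : Function.Injective F := by
    intro x y hxy
    apply Subtype.ext
    apply hf
    exact congrArg Subtype.val hxy
  obtain ⟨t, ht⟩ := Finite.surjective_of_injective hF ⟨h, hh⟩
  exact ⟨t, t.2, congrArg Subtype.val ht⟩

theorem decomp (h k : H2) (e : (h : G2).2 = (k : G2).2) : ((h * k⁻¹ : H2) : G2).2 = 1 := by
  show (h : G2).2 * ((k : G2).2)⁻¹ = 1
  rw [e, mul_inv_cancel]

theorem coHopfian_H2 : CoHopfian H2 := by
  intro f hf
  let g : Multiplicative A →* Multiplicative A :=
    ((MonoidHom.snd (Equiv.Perm (Fin 3)) (Multiplicative A)).comp H2.subtype).comp (f.comp sg)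
  have hg : ∀ u, g u = (f (sg u) : G2).2 := fun u => rfl
  -- the torsion element
  have hsw : Equiv.Perm.sign (Equiv.swap 0 1 * Equiv.swap 1 2 : Equiv.Perm (Fin 3)) = 1 := by
    decide
  let t : H2 := ⟨(Equiv.swap 0 1 * Equiv.swap 1 2, 1), by rw [mem_H2, map_one]; exact hsw⟩
  have ht2 : (t : G2).2 = 1 := rfl
  have ht1 : t ≠ 1 := by
    intro h
    have h1 : (Equiv.swap 0 1 * Equiv.swap 1 2 : Equiv.Perm (Fin 3)) = 1 :=
      congrArg (fun z : H2 => (z : G2).1) h
    revert h1
    decide
  set a : Multiplicative A := mk 1 one_mem with ha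
  have hpa : par a = -1 := by
    have : par a ≠ 1 := by
      rw [ne_eq, par_eq_one, ha, vl_mk]
      simp
    rcases Int.units_eq_one_or (par a) with h | h
    · exact absurd h this
    · exact h
  have hconj : sg a * t * (sg a)⁻¹ = t⁻¹ := by
    apply Subtype.ext
    apply Prod.ext
    · show sec (par a) * (t : G2).1 * (sec (par a))⁻¹ = ((t : G2).1)⁻¹
      exact odd_conj _ _ (T_sign ht2) (by rw [sign_sec, hpa])
    · show a * (t : G2).2 * a⁻¹ = ((t : G2).2)⁻¹
      rw [ht2]
      simp
  have hft2 : (f t : G2).2 = 1 := T_map f ht2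
  have hsign : Equiv.Perm.sign (f (sg a) : G2).1 = -1 := by
    rcases Int.units_eq_one_or (Equiv.Perm.sign (f (sg a) : G2).1) with h | h
    · exfalso
      have h1 : f (sg a) * f t * (f (sg a))⁻¹ = (f t)⁻¹ := by
        rw [← map_mul, ← map_inv, ← map_mul, hconj, map_inv]
      have h2 : f (sg a) * f t * (f (sg a))⁻¹ = f t := by
        apply Subtype.ext
        apply Prod.ext
        · show (f (sg a) : G2).1 * (f t : G2).1 * ((f (sg a) : G2).1)⁻¹ = (f t : G2).1
          exact even_comm _ _ (T_sign hft2) h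
        · show (f (sg a) : G2).2 * (f t : G2).2 * ((f (sg a) : G2).2)⁻¹ = (f t : G2).2
          rw [hft2]
          simp
      rw [h2] at h1
      have h3 : f t ^ 3 = 1 := T_cube hft2
      have h4 : f t * f t = 1 := by
        nth_rewrite 1 [h1]
        exact inv_mul_cancel _
      have h5 : f t = 1 := by
        have : f t ^ 3 = f t * f t * f t := by rw [pow_succ, pow_two]
        rw [this, h4, one_mul] at h3
        exact h3
      exact ht1 (hf (by rw [h5, map_one]))
    · exact h
  have hpr : par (g a) = -1 := by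
    rw [hg, ← (mem_H2 _).1 (f (sg a)).2, hsign]
  set r : ℚ := vl (g a) with hr
  have hrodd : Odd r.num := by
    rw [← Int.not_even_iff_odd, hr, ← par_eq_one, hpr]
    decide
  have hr0 : r ≠ 0 := by
    intro h
    rw [h] at hrodd
    simp at hrodd
  have hlin : ∀ q (hq : q ∈ A), vl (g (mk q hq)) = q * r := by
    intro q hq
    have h1 : (mk q hq) ^ q.den = a ^ q.num := by
      apply vl_inj
      rw [vl_pow, vl_zpow, vl_mk, ha, vl_mk, mul_one, mul_comm]
      exact Rat.mul_den_eq_num q
    have h2 := congrArg (fun z => vl (g z)) h1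
    simp only [map_pow, map_zpow, vl_pow, vl_zpow] at h2
    have hq0 : (q.den : ℚ) ≠ 0 := by exact_mod_cast q.den_nz
    have h3 : q = q.num / q.den := (Rat.num_div_den q).symm
    have h4 : vl (g (mk q hq)) = q.num * r / q.den := by
      rw [eq_div_iff hq0, mul_comm]
      exact h2
    rw [h4]
    nth_rewrite 3 [h3]
    ring
  have hrinv : r⁻¹ ∈ A := by
    have h1 : (r⁻¹ : ℚ) = ((r.den : ℤ) : ℚ) / (r.num : ℤ) := by
      nth_rewrite 1 [← Rat.num_div_den r]
      rw [inv_div]
      push_cast
      rfl
    rw [h1]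
    exact div_mem hrodd
  intro y
  have hq : vl (y : G2).2 * r⁻¹ ∈ A := by
    have h1 := odd_den (vl_mem (y : G2).2)
    have h2 : vl (y : G2).2 * r⁻¹ = (((vl (y : G2).2).num * (r.den : ℤ) : ℤ) : ℚ) /
        ((((vl (y : G2).2).den : ℤ) * r.num : ℤ) : ℚ) := by
      nth_rewrite 1 [← Rat.num_div_den (vl (y : G2).2)]
      nth_rewrite 1 [← Rat.num_div_den r]
      rw [inv_div]
      push_cast
      ring
    rw [h2]
    exact div_mem (h1.mul hrodd)
  have hgu : g (mk _ hq) = (y : G2).2 := by
    apply vl_inj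
    rw [hlin, mul_assoc, inv_mul_cancel₀ hr0, mul_one]
  obtain ⟨s, -, hs⟩ := T_surj f hf (h := y * (f (sg (mk _ hq)))⁻¹)
    (decomp _ _ (by rw [← hg, hgu]))
  refine ⟨s * sg (mk _ hq), ?_⟩
  rw [map_mul, hs]
  simp

theorem index_H2 : H2.index = 2 := by
  rw [H2, Subgroup.index_ker]
  have : (((Equiv.Perm.sign.comp (MonoidHom.fst _ _)) * (par.comp (MonoidHom.snd _ _)) :
    G2 →* ℤˣ)).range = ⊤ := by
    rw [MonoidHom.range_eq_top]
    intro u
    refine ⟨(sec u, 1), ?_⟩
    show Equiv.Perm.sign (sec u) * par 1 = u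
    rw [sign_sec, map_one, mul_one]
  rw [this]
  simp

end Pool.Agent.W702.CoHopf.Ext
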