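import Mathlib
import Pool.Agent.W702.CoHopf.Main

/-!
`(C_3 * C_5) ⋊ C_2` is finitely presented.
-/

namespace Pool.Agent.W702.CoHopf

open Monoid.CoprodI

/-- homomorphism from a cyclic group -/
def cyc {P : Type} [Group P] (n : ℕ) [NeZero n] (p : P) (h : p ^ n = 1) :
    Multiplicative (ZMod n) →* P where
  toFun x := p ^ (Multiplicative.toAdd x).val
  map_one' := by simp
  map_mul' x y := by
    rw [toAdd_mul, ZMod.val_add, ← pow_eq_pow_mod _ h, pow_add]

theorem cyc_apply {P : Type} [Group P] (n : ℕ) [NeZero n] (p : P) (h : p ^ n = 1)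
    (x : Multiplicative (ZMod n)) : cyc n p h x = p ^ (Multiplicative.toAdd x).val := rfl

theorem gen_pow (n : ℕ) [NeZero n] (x : Multiplicative (ZMod n)) :
    (Multiplicative.ofAdd (1 : ZMod n)) ^ (Multiplicative.toAdd x).val = x := by
  rw [← ofAdd_nsmul, nsmul_eq_mul, mul_one, ZMod.natCast_zmod_val]
  rfl

/-- the relators -/
def rels : Set (FreeGroup (Fin 3)) :=
  {FreeGroup.of 0 ^ 3, FreeGroup.of 1 ^ 5, FreeGroup.of 2 ^ 2,
    FreeGroup.of 2 * FreeGroup.of 0 * (FreeGroup.of 2)⁻¹ * FreeGroup.of 0,
    FreeGroup.of 2 * FreeGroup.of 1 * (FreeGroup.of 2)⁻¹ * FreeGroup.of 1}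

theorem rels_finite : rels.Finite := by
  unfold rels
  simp

/-- the presented group -/
abbrev P : Type := PresentedGroup rels

theorem rel_one {r : FreeGroup (Fin 3)} (h : r ∈ rels) : PresentedGroup.mk rels r = 1 :=
  PresentedGroup.one_of_mem h

theorem ra : (PresentedGroup.of (rels := rels) 0) ^ 3 = 1 := by
  have := rel_one (r := FreeGroup.of 0 ^ 3) (by simp [rels])
  rw [map_pow] at this
  exact this

theorem rb : (PresentedGroup.of (rels := rels) 1) ^ 5 = 1 := by
  have := rel_one (r := FreeGroup.of 1 ^ 5) (by simp [rels])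
  rw [map_pow] at this
  exact this

theorem rt : (PresentedGroup.of (rels := rels) 2) ^ 2 = 1 := by
  have := rel_one (r := FreeGroup.of 2 ^ 2) (by simp [rels])
  rw [map_pow] at this
  exact this

theorem rta : (PresentedGroup.of (rels := rels) 2) * PresentedGroup.of 0 *
    (PresentedGroup.of 2)⁻¹ = (PresentedGroup.of 0)⁻¹ := by
  have := rel_one (r := FreeGroup.of 2 * FreeGroup.of 0 * (FreeGroup.of 2)⁻¹ * FreeGroup.of 0)
    (by simp [rels])
  rw [map_mul, map_mul, map_mul, map_inv] at this
  exact eq_inv_of_mul_eq_one_left this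

theorem rtb : (PresentedGroup.of (rels := rels) 2) * PresentedGroup.of 1 *
    (PresentedGroup.of 2)⁻¹ = (PresentedGroup.of 1)⁻¹ := by
  have := rel_one (r := FreeGroup.of 2 * FreeGroup.of 1 * (FreeGroup.of 2)⁻¹ * FreeGroup.of 1)
    (by simp [rels])
  rw [map_mul, map_mul, map_mul, map_inv] at this
  exact eq_inv_of_mul_eq_one_left this

/-- the two cyclic groups in the presented group -/
def fM : ∀ b : Bool, M b →* P
  | true => cyc 3 (PresentedGroup.of 0) ra
  | false => cyc 5 (PresentedGroup.of 1) rb

/-- the map on the free product -/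
noncomputable def fN : N →* P := Monoid.CoprodI.lift fM

/-- the map on `C_2` -/
def fS : ℤˣ →* P where
  toFun u := if u = 1 then 1 else PresentedGroup.of 2
  map_one' := by simp
  map_mul' u v := by
    have h : (PresentedGroup.of (rels := rels) 2) * PresentedGroup.of 2 = 1 := by
      rw [← pow_two, rt]
    rcases Int.units_eq_one_or u with rfl | rfl <;> rcases Int.units_eq_one_or v with rfl | rfl <;>
      simp [h]

theorem fS_neg : fS (-1) = PresentedGroup.of 2 := by simp [fS]

theorem fM_inv (b : Bool) (x : M b) : fM b x⁻¹ = PresentedGroup.of 2 * fM b x *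
    (PresentedGroup.of 2)⁻¹ := by
  have e : ∀ (g : P) (k : ℕ), PresentedGroup.of 2 * g ^ k * (PresentedGroup.of 2)⁻¹ =
      (PresentedGroup.of (rels := rels) 2 * g * (PresentedGroup.of 2)⁻¹) ^ k := by
    intro g k
    exact (conj_pow).symm
  rw [map_inv]
  cases b with
  | true =>
    show (cyc 3 (PresentedGroup.of 0) ra x)⁻¹ = PresentedGroup.of 2 *
      cyc 3 (PresentedGroup.of 0) ra x * (PresentedGroup.of 2)⁻¹
    rw [cyc_apply, e, rta, inv_pow]
  | false =>
    show (cyc 5 (PresentedGroup.of 1) rb x)⁻¹ = PresentedGroup.of 2 *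
      cyc 5 (PresentedGroup.of 1) rb x * (PresentedGroup.of 2)⁻¹
    rw [cyc_apply, e, rtb, inv_pow]

/-- the map from the group -/
noncomputable def fromG : G →* P := SemidirectProduct.lift fN fS (by
  intro u
  apply Monoid.CoprodI.ext_hom
  intro b
  refine MonoidHom.ext fun x => ?_
  rcases Int.units_eq_one_or u with rfl | rfl
  · show fN (act 1 (of x)) = MulAut.conj (fS 1) (fN (of x))
    rw [map_one, map_one]
    simp
  · show fN (act (-1) (of x)) = MulAut.conj (fS (-1)) (fN (of x))
    rw [act_neg, sigma_of, fS_neg, MulAut.conj_apply]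
    simp only [fN, Monoid.CoprodI.lift_of]
    exact fM_inv b x)

/-- generators of the group -/
noncomputable def gens : Fin 3 → G :=
  ![SemidirectProduct.inl (of (i := true) (Multiplicative.ofAdd (1 : ZMod 3))),
    SemidirectProduct.inl (of (i := false) (Multiplicative.ofAdd (1 : ZMod 5))), s]

theorem s_conj (n : N) : s * SemidirectProduct.inl n * s⁻¹ =
    (SemidirectProduct.inl (sigma n) : G) := by
  have := SemidirectProduct.inl_aut (φ := act) (-1) n
  rw [act_neg] at this
  rw [this, s, map_inv]

theorem s_sq : s * s = 1 := by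
  rw [s, ← map_mul]; simp

theorem gens_rel : ∀ r ∈ rels, FreeGroup.lift gens r = 1 := by
  intro r hr
  simp only [rels, Set.mem_insert_iff, Set.mem_singleton_iff] at hr
  have h0 : FreeGroup.lift gens (FreeGroup.of 0) =
      SemidirectProduct.inl (of (i := true) (Multiplicative.ofAdd (1 : ZMod 3))) := by
    rw [FreeGroup.lift_apply_of]; rfl
  have h1 : FreeGroup.lift gens (FreeGroup.of 1) =
      SemidirectProduct.inl (of (i := false) (Multiplicative.ofAdd (1 : ZMod 5))) := by
    rw [FreeGroup.lift_apply_of]; rfl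
  have h2 : FreeGroup.lift gens (FreeGroup.of 2) = s := by
    rw [FreeGroup.lift_apply_of]; rfl
  rcases hr with rfl | rfl | rfl | rfl | rfl
  · rw [map_pow, h0, ← map_pow, ← map_pow]
    have : (Multiplicative.ofAdd (1 : ZMod 3) : M true) ^ 3 = 1 := pow_q true _
    rw [this, map_one, map_one]
  · rw [map_pow, h1, ← map_pow, ← map_pow]
    have : (Multiplicative.ofAdd (1 : ZMod 5) : M false) ^ 5 = 1 := pow_q false _
    rw [this, map_one, map_one]
  · rw [map_pow, h2, pow_two, s_sq]
  · rw [map_mul, map_mul, map_mul, map_inv, h0, h2, s_conj, ← map_mul, sigma_of, ← map_mul,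
      inv_mul_cancel, map_one, map_one]
  · rw [map_mul, map_mul, map_mul, map_inv, h1, h2, s_conj, ← map_mul, sigma_of, ← map_mul,
      inv_mul_cancel, map_one, map_one]

/-- the map to the group -/
noncomputable def toG : P →* G := PresentedGroup.toGroup gens_rel

theorem toG_of (i : Fin 3) : toG (PresentedGroup.of i) = gens i := PresentedGroup.toGroup.of gens_rel

theorem from_to : fromG.comp toG = MonoidHom.id P := by
  apply PresentedGroup.ext
  intro i
  rw [MonoidHom.comp_apply, toG_of, MonoidHom.id_apply]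
  fin_cases i
  · show fromG (SemidirectProduct.inl (of (M := M) (i := true) (Multiplicative.ofAdd (1 : ZMod 3)))) = _
    rw [fromG, SemidirectProduct.lift_inl, fN, Monoid.CoprodI.lift_of]
    show cyc 3 (PresentedGroup.of 0) ra (Multiplicative.ofAdd (1 : ZMod 3)) = _
    rw [cyc_apply]
    show PresentedGroup.of 0 ^ (1 : ZMod 3).val = _
    have : (1 : ZMod 3).val = 1 := rfl
    rw [this, pow_one]
    rfl
  · show fromG (SemidirectProduct.inl (of (M := M) (i := false) (Multiplicative.ofAdd (1 : ZMod 5)))) = _
    rw [fromG, SemidirectProduct.lift_inl, fN, Monoid.CoprodI.lift_of]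
    show cyc 5 (PresentedGroup.of 1) rb (Multiplicative.ofAdd (1 : ZMod 5)) = _
    rw [cyc_apply]
    show PresentedGroup.of 1 ^ (1 : ZMod 5).val = _
    have : (1 : ZMod 5).val = 1 := rfl
    rw [this, pow_one]
    rfl
  · show fromG s = _
    rw [fromG, s, SemidirectProduct.lift_inr, fS_neg]
    rfl

theorem to_from : toG.comp fromG = MonoidHom.id G := by
  apply SemidirectProduct.hom_ext
  · apply Monoid.CoprodI.ext_hom
    intro b
    refine MonoidHom.ext fun x => ?_
    show toG (fromG (SemidirectProduct.inl (of x))) = SemidirectProduct.inl (of x)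
    rw [fromG, SemidirectProduct.lift_inl, fN, Monoid.CoprodI.lift_of]
    cases b with
    | true =>
      show toG (cyc 3 (PresentedGroup.of 0) ra x) = _
      rw [cyc_apply, map_pow, toG_of]
      show (SemidirectProduct.inl (of (M := M) (i := true) (Multiplicative.ofAdd (1 : ZMod 3)))) ^ _ = _
      rw [← map_pow, ← map_pow]
      congr 2
      exact gen_pow 3 x
    | false =>
      show toG (cyc 5 (PresentedGroup.of 1) rb x) = _
      rw [cyc_apply, map_pow, toG_of]
      show (SemidirectProduct.inl (of (M := M) (i := false) (Multiplicative.ofAdd (1 : ZMod 5)))) ^ _ = _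
      rw [← map_pow, ← map_pow]
      congr 2
      exact gen_pow 5 x
  · refine MonoidHom.ext fun u => ?_
    show toG (fromG (SemidirectProduct.inr u)) = SemidirectProduct.inr u
    rw [fromG, SemidirectProduct.lift_inr]
    rcases Int.units_eq_one_or u with rfl | rfl
    · rw [map_one, map_one, map_one]
    · rw [fS_neg, toG_of]
      rfl

/-- the isomorphism -/
noncomputable def isoP : P ≃* G where
  toFun := toG
  invFun := fromG
  left_inv x := DFunLike.congr_fun from_to x
  right_inv x := DFunLike.congr_fun to_from x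
  map_mul' := toG.map_mul

theorem fp_G : Group.IsFinitelyPresented G := by
  haveI : Finite rels := rels_finite.to_subtype
  exact Group.IsFinitelyPresented.equiv isoP

end Pool.Agent.W702.CoHopf
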